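import Pool.Agent.H64.EV.Targets

/-!
# Row TST: the relation of the pairings of symmetric classes, for the invariant tensors
-/

set_option autoImplicit false
set_option linter.unusedSectionVars false
set_option linter.unusedVariables false

open Matrix Pool.Agent.H64.CC Pool.Agent.H2.NL Pool.Agent.H64.EV

namespace Pool.Agent.H19.EV

section

variable {K : Type} [Field K] [CharZero K] {I : Type} [Fintype I] [DecidableEq I] (F : OForm K I)
  (A : ℕ → Submodule ℚ (List I → K))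

theorem sg_not (p : Bool) : sg K (!p) = - sg K p := by
  unfold sg
  cases p <;> simp

theorem tl_sd : F.tl.sd = -2 * F.sd := by
  show ∑ a : I × Bool, sg K (!F.o a.1) = -2 * ∑ a, sg K (F.o a)
  rw [Fintype.sum_prod_type, Finset.mul_sum]
  refine Finset.sum_congr rfl fun a _ => ?_
  rw [Fintype.sum_bool, sg_not]
  ring

theorem zip_map (w : List (I × Bool)) : (w.map Prod.fst).zip (w.map Prod.snd) = w := by
  induction w with
  | nil => rfl
  | cons a w ih => rw [List.map_cons, List.map_cons, List.zip_cons_cons, ih]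

theorem even_TA (hA : Calc F.o F.η F.ω A) (k : ℕ) (x : List (I × Bool) → K) (hx : x ∈ F.TA A k)
    (w : List (I × Bool)) (hw : w.length = 2 * k) (hne : x w ≠ 0) :
    Even (odds F.o (w.map Prod.fst)) := by
  have h1 : F.cmp x (w.map Prod.snd) ∈ A k := hx _ (by rw [List.length_map, hw])
  refine hA.even k _ (w.map Prod.fst) h1 (by rw [List.length_map, hw]) ?_
  show (F.lw 0 ((w.map Prod.fst).zip (w.map Prod.snd)))⁻¹ *
    x ((w.map Prod.fst).zip (w.map Prod.snd)) ≠ 0
  rw [zip_map]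
  exact mul_ne_zero (inv_ne_zero (F.lw_ne w 0)) hne

theorem rv_cmp_mem (hTC1 : T_TC1) (hA : Calc F.o F.η F.ω A) (k : ℕ) (y : List (I × Bool) → K)
    (hy : rv y ∈ F.TA A k) (τ : List Bool) (hτ : τ.length = 2 * k) : rv (F.cmp y τ) ∈ A k := by
  have hlen : τ.reverse.length = 2 * k := by rw [List.length_reverse, hτ]
  have h1 : F.cmp (rv y) τ.reverse ∈ A k := hy _ hlen
  refine hA.congr k _ _ h1 fun w hw => ?_
  by_cases he : Even (odds F.o w)
  · have h2 := (hTC1 K I F).2.2 k y τ.reverse w hw hlen he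
    rw [List.reverse_reverse] at h2
    exact h2.symm
  · have h3 : F.cmp (rv y) τ.reverse w = 0 := by
      by_contra hne
      exact he (hA.even k _ w h1 hw hne)
    rw [h3]
    have h4 : rv y (w.zip τ.reverse) = 0 := by
      have h5 : (F.lw 0 (w.zip τ.reverse))⁻¹ * rv y (w.zip τ.reverse) = 0 := h3
      rcases mul_eq_zero.mp h5 with h6 | h6
      · exact absurd h6 (inv_ne_zero (F.lw_ne _ 0))
      · exact h6
    show (F.lw 0 (w.reverse.zip τ))⁻¹ * y (w.reverse.zip τ) = 0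
    have h7 : w.reverse.zip τ = (w.zip τ.reverse).reverse := by
      have h8 := List.reverse_zipWith (f := Prod.mk) (l := w) (l' := τ.reverse) (by rw [hw, hlen])
      rw [List.reverse_reverse] at h8
      exact h8.symm
    have h9 : y ((w.zip τ.reverse).reverse) = 0 := h4
    rw [h7, h9, mul_zero]

end

theorem pf_TST (hTC1 : T_TC1) (hTCA : T_TCA) (hTIN : T_TIN) (hTS1 : T_TS1) (hTS3 : T_TS3)
    (hTS4 : T_TS4) : T_TST := by
  intro K _ _ I _ _ F A hA hE k x y hk hx hy hsx hsy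
  have hxA : x ∈ F.TA A k := hx.1
  have hyA : rv y ∈ F.TA A k := hy.1
  obtain ⟨P, hP⟩ : ∃ P, P = Pr F.tl (2 * k) x y := ⟨_, rfl⟩
  obtain ⟨Q, hQ⟩ : ∃ Q, Q = Pr F.tl (2 * k - 2) (con F.tl.η 0 x) (con' F.tl y) := ⟨_, rfl⟩
  have hP1 := hTS1 K I F (2 * k) x y fun w hw hne => even_TA F A hA k x hxA w hw hne
  obtain ⟨h31, h32⟩ := hTS3 K I F A hA k x y hk hx hsx hsy
  have h4 := hTS4 K I F A hA k x y hk hxA hsx hsy
  rw [← hP] at hP1 h32
  rw [← hQ] at h4
  obtain ⟨S1, hS1⟩ : ∃ S1, S1 = ∑ σ : List.Vector Bool (2 * k), (-1 : K) ^ (σ.1.count true) *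
      F.Pr (2 * k) (F.cmp x (xs 0 σ.1)) (F.cmp y (σ.1.map not)) := ⟨_, rfl⟩
  obtain ⟨S2, hS2⟩ : ∃ S2, S2 = ∑ σ : List.Vector Bool (2 * k), (-1 : K) ^ (σ.1.count true) *
      F.Pr (2 * k - 2) (con F.η 0 (F.cmp x σ.1)) (F.con' (F.cmp y (σ.1.map not))) := ⟨_, rfl⟩
  rw [← hS1] at h32
  rw [← hS2] at h4
  have hrel : ∀ σ : List.Vector Bool (2 * k), (-1 : K) ^ (σ.1.count true) *
      ((F.sd - 1) * F.Pr (2 * k) (F.cmp x σ.1) (F.cmp y (σ.1.map not)) +
      ∑ i ∈ Finset.range (2 * k - 1),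
        (F.Pr (2 * k) (sw F.o 0 (mv F.o (i + 1) (F.cmp x σ.1)))
          (mv F.o (i + 1) (F.cmp y (σ.1.map not))) -
        F.Pr (2 * k - 2) (con F.η 0 (mv F.o (i + 1) (F.cmp x σ.1)))
          (F.con' (mv F.o (i + 1) (F.cmp y (σ.1.map not)))))) = 0 := by
    intro σ
    rw [hE k (F.cmp x σ.1) (F.cmp y (σ.1.map not)) hk (hxA _ σ.2)
      (rv_cmp_mem F A hTC1 hA k y hyA _ (by rw [List.length_map, σ.2])), mul_zero]
  have hsum := Finset.sum_eq_zero fun (σ : List.Vector Bool (2 * k)) (_ : σ ∈ Finset.univ) =>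
    hrel σ
  have hexp : (F.sd - 1) * P + ∑ i ∈ Finset.range (2 * k - 1), (- S1 - S2) = 0 := by
    rw [← hsum]
    simp only [mul_add, Finset.sum_add_distrib]
    congr 1
    · rw [hP1, Finset.mul_sum]
      exact Finset.sum_congr rfl fun σ _ => by ring
    · simp only [Finset.mul_sum]
      rw [Finset.sum_comm]
      refine Finset.sum_congr rfl fun i hi => ?_
      rw [h31 i (Finset.mem_range.mp hi), hS1, hS2, ← Finset.sum_neg_distrib,
        ← Finset.sum_sub_distrib]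
      exact Finset.sum_congr rfl fun σ _ => by ring
  rw [Finset.sum_const, Finset.card_range, nsmul_eq_mul, Nat.cast_sub (by omega)] at hexp
  push_cast at hexp
  show (F.tl.sd + (2 * k - 2)) * Pr F.tl (2 * k) x y =
    (2 * k - 1) * Pr F.tl (2 * k - 2) (con F.tl.η 0 x) (con' F.tl y)
  rw [← hP, ← hQ, tl_sd]
  linear_combination (-2 : K) * hexp - 2 * h32 + (-(2 * (k : K) - 1)) * h4

end Pool.Agent.H19.EV
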